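import Pool.Agent.Y368.CL.Grow

/-!
# Returns versus growth: the approximate cocycle
-/

open scoped Manifold ContDiff Topology
open Filter Set Metric

universe u

namespace Pool.Agent.Y368.CL

open Pool.Agent.H718R2.G Pool.Agent.W564.SC Pool.Agent.W509.SC

section

variable {n : ℕ} {N : Type u} [TopologicalSpace N] [ChartedSpace (V n) N] {r : ℕ∞}

theorem acmG {F : DiffM n N r} {χ : OpenPartialHomeomorph N (V n)} {m : ℕ} {Λ : ℝ}
    (h : DerBd F χ m Λ) (hΛ16 : 16 ≤ Λ) (y : N) (hy : y ∈ χ.source) (hy16 : ‖χ y‖ ≤ 1 / 16) :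
    ∃ A : ℤ → V n →L[ℝ] V n,
      AC n m Λ (fun i => it F i y ∈ χ.source ∧ ‖χ (it F i y)‖ ≤ 1 / 4)
        (fun i => χ (it F i y) - χ y) A := by
  obtain ⟨h1, h2⟩ := h
  obtain ⟨e, he⟩ : ∃ e : ℝ, e = Λ⁻¹ := ⟨_, rfl⟩
  have hΛ0 : 0 < Λ := by linarith
  have he0 : 0 < e := by rw [he]; positivity
  have heΛ : Λ * e = 1 := by rw [he]; exact mul_inv_cancel₀ hΛ0.ne'
  have he16 : e ≤ 1 / 16 := by
    rw [he, one_div]
    exact inv_anti₀ (by norm_num) hΛ16
  have hΛi : Λ⁻¹ = e := he.symm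
  rw [← he] at h1 h2
  have hy4 : ‖χ y‖ ≤ 1 / 4 := by linarith
  have hy8 : ‖χ y‖ ≤ 1 / 8 := by linarith
  refine ⟨fun i => fderiv ℝ (χ ∘ it F i ∘ χ.symm) (χ y), ?_, ?_, ?_⟩
  · refine ⟨⟨by rw [it_zero]; exact hy, by rw [it_zero]; exact hy4⟩, ?_, ?_⟩
    · simp only [it_zero, sub_self]
    · have hev : (χ ∘ it F 0 ∘ χ.symm) =ᶠ[𝓝 (χ y)] id := by
        have ht : χ.target ∈ 𝓝 (χ y) := χ.open_target.mem_nhds (χ.map_source hy)
        filter_upwards [ht] with x hx
        simp only [Function.comp, it_zero, id]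
        exact χ.right_inv hx
      change fderiv ℝ (χ ∘ it F 0 ∘ χ.symm) (χ y) = _
      rw [hev.fderiv_eq, fderiv_id]
  · intro i hi hP
    exact (h2 i hi y hy hy8 hP.1 hP.2 (χ y) (mem_ball_self he0)).2.1
  · intro i j hi hj hij hPj hvj hor
    obtain ⟨y1, hy1⟩ : ∃ y1 : N, y1 = it F j y := ⟨_, rfl⟩
    simp only [it_add, ← hy1] at hPj hvj hor ⊢
    rw [hΛi] at hvj
    obtain ⟨w, hw⟩ : ∃ w : V n, w = χ y1 - χ y := ⟨_, rfl⟩
    have hxy : χ y1 = χ y + w := by rw [hw]; abel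
    rw [← hw] at hvj
    have hwe : ‖w‖ ≤ e / 16 := by
      refine hvj.trans ?_
      rw [sq]
      nlinarith
    have hwe' : ‖w‖ < e := by linarith
    have hΛw : Λ * ‖w‖ ≤ e := by
      calc Λ * ‖w‖ ≤ Λ * e ^ 2 := mul_le_mul_of_nonneg_left hvj hΛ0.le
        _ = (Λ * e) * e := by ring
        _ = e := by rw [heΛ, one_mul]
    have hdist : ‖χ y - χ y1‖ = ‖w‖ := by rw [hw, norm_sub_rev]
    have hPP : (it F i y ∈ χ.source ∧ ‖χ (it F i y)‖ ≤ 1 / 4) ∧
        (it F i y1 ∈ χ.source ∧ ‖χ (it F i y1)‖ ≤ 1 / 4) := by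
      rcases hor with ⟨hPi, hvi⟩ | ⟨hPi, hvi⟩
      · obtain ⟨g1, g2⟩ := h1 i hi y hy y1 hPj.1 hy4 hPj.2 (by rw [hdist]; linarith) hPi.1 hPi.2
        rw [hdist] at g2
        refine ⟨hPi, g1, ?_⟩
        have e1 : χ (it F i y1) = χ y + (χ (it F i y) - χ y) - (χ (it F i y) - χ (it F i y1)) := by
          abel
        rw [e1]
        calc ‖χ y + (χ (it F i y) - χ y) - (χ (it F i y) - χ (it F i y1))‖ ≤
            ‖χ y + (χ (it F i y) - χ y)‖ + ‖χ (it F i y) - χ (it F i y1)‖ := norm_sub_le _ _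
          _ ≤ ‖χ y‖ + ‖χ (it F i y) - χ y‖ + ‖χ (it F i y) - χ (it F i y1)‖ := by
              have := norm_add_le (χ y) (χ (it F i y) - χ y)
              linarith
          _ ≤ 1 / 4 := by linarith
      · obtain ⟨g1, g2⟩ := h1 i hi y1 hPj.1 y hy hPj.2 hy4 (by rw [norm_sub_rev, hdist]; linarith)
          hPi.1 hPi.2
        rw [norm_sub_rev (χ y1), hdist] at g2
        refine ⟨⟨g1, ?_⟩, hPi⟩
        have e1 : χ (it F i y) = χ y + (χ (it F i y1) - χ y) - (χ (it F i y1) - χ (it F i y)) := by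
          abel
        rw [e1]
        calc ‖χ y + (χ (it F i y1) - χ y) - (χ (it F i y1) - χ (it F i y))‖ ≤
            ‖χ y + (χ (it F i y1) - χ y)‖ + ‖χ (it F i y1) - χ (it F i y)‖ := norm_sub_le _ _
          _ ≤ ‖χ y‖ + ‖χ (it F i y1) - χ y‖ + ‖χ (it F i y1) - χ (it F i y)‖ := by
              have := norm_add_le (χ y) (χ (it F i y1) - χ y)
              linarith
          _ ≤ 1 / 4 := by linarith
    obtain ⟨hPi, hPij⟩ := hPP
    have hgi := h2 i hi y hy hy8 hPi.1 hPi.2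
    have hgj := h2 j hj y hy hy8 (by rw [← hy1]; exact hPj.1) (by rw [← hy1]; exact hPj.2)
    have hw1 : χ y + w ∈ ball (χ y) e := by
      rw [mem_ball_iff_norm, add_sub_cancel_left]
      exact hwe'
    refine ⟨hPi, hPij, ?_, ?_⟩
    · -- mean value inequality
      have hs : Convex ℝ (closedBall (χ y) ‖w‖) := convex_closedBall _ _
      have hsub : closedBall (χ y) ‖w‖ ⊆ ball (χ y) e := closedBall_subset_ball hwe'
      have hmv := hs.norm_image_sub_le_of_norm_fderiv_le' (𝕜 := ℝ)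
        (f := χ ∘ it F i ∘ χ.symm) (C := Λ * ‖w‖)
        (φ := fderiv ℝ (χ ∘ it F i ∘ χ.symm) (χ y)) (x := χ y) (y := χ y + w)
        (fun x hx => (hgi x (hsub hx)).1)
        (fun x hx => by
          refine (hgi x (hsub hx)).2.2.trans ?_
          refine mul_le_mul_of_nonneg_left ?_ hΛ0.le
          rw [mem_closedBall, dist_eq_norm] at hx
          exact hx)
        (mem_closedBall_self (norm_nonneg _))
        (by rw [mem_closedBall, dist_eq_norm, add_sub_cancel_left])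
      rw [add_sub_cancel_left] at hmv
      have e1 : (χ ∘ it F i ∘ χ.symm) (χ y + w) = χ (it F i y1) := by
        simp only [Function.comp]
        rw [← hxy, χ.left_inv hPj.1]
      have e2 : (χ ∘ it F i ∘ χ.symm) (χ y) = χ (it F i y) := by
        simp only [Function.comp]
        rw [χ.left_inv hy]
      rw [e1, e2] at hmv
      have e3 : χ (it F i y1) - χ y - (χ (it F i y) - χ y) -
          (fderiv ℝ (χ ∘ it F i ∘ χ.symm) (χ y)) (χ y1 - χ y) =
          χ (it F i y1) - χ (it F i y) - (fderiv ℝ (χ ∘ it F i ∘ χ.symm) (χ y)) w := by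
        rw [← hw]
        abel
      rw [e3, ← hw]
      calc _ ≤ Λ * ‖w‖ * ‖w‖ := hmv
        _ = Λ * ‖w‖ ^ 2 := by ring
    · -- chain rule
      have hev : (χ ∘ it F (i + j) ∘ χ.symm) =ᶠ[𝓝 (χ y)]
          (χ ∘ it F i ∘ χ.symm) ∘ (χ ∘ it F j ∘ χ.symm) := by
        have ht : χ.target ∈ 𝓝 (χ y) := χ.open_target.mem_nhds (χ.map_source hy)
        have hc : ContinuousAt (it F j ∘ χ.symm) (χ y) := by
          refine (it_cont F j).continuousAt.comp ?_
          exact χ.continuousAt_symm (χ.map_source hy)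
        have hs : (it F j ∘ χ.symm) ⁻¹' χ.source ∈ 𝓝 (χ y) := by
          refine hc.preimage_mem_nhds (χ.open_source.mem_nhds ?_)
          simp only [Function.comp]
          rw [χ.left_inv hy, ← hy1]
          exact hPj.1
        filter_upwards [hs] with x hx
        simp only [Function.comp, mem_preimage] at hx ⊢
        rw [χ.left_inv hx, it_add]
      have e1 : (χ ∘ it F j ∘ χ.symm) (χ y) = χ y + w := by
        simp only [Function.comp]
        rw [χ.left_inv hy, ← hy1, hxy]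
      have hd1 : DifferentiableAt ℝ (χ ∘ it F i ∘ χ.symm) ((χ ∘ it F j ∘ χ.symm) (χ y)) := by
        rw [e1]
        exact (hgi _ hw1).1
      have hd2 := (hgj (χ y) (mem_ball_self he0)).1
      rw [hev.fderiv_eq, fderiv_comp _ hd1 hd2, e1, ← ContinuousLinearMap.sub_comp, ← hw]
      refine (ContinuousLinearMap.opNorm_comp_le _ _).trans ?_
      have b1 := (hgi _ hw1).2.2
      rw [add_sub_cancel_left] at b1
      have b2 := (hgj (χ y) (mem_ball_self he0)).2.1
      calc _ ≤ (Λ * ‖w‖) * Λ := mul_le_mul b1 b2 (norm_nonneg _) (by positivity)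
        _ = Λ ^ 2 * ‖w‖ := by ring

end

end Pool.Agent.Y368.CL
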