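import Pool.Agent.Y368.CL.Met

/-!
# Returns versus growth: the Lipschitz constant of the derivative of an iterate
-/

open scoped Manifold ContDiff Topology
open Filter Set Metric

universe u

namespace Pool.Agent.Y368.CL

open Pool.Agent.H718R2.G Pool.Agent.W564.SC Pool.Agent.W509.SC

section

variable {n : ℕ} {N : Type u} [MetricSpace N] [ChartedSpace (V n) N] {r : ℕ∞}

theorem fderiv_self {χ : OpenPartialHomeomorph N (V n)} {x : V n} (hx : x ∈ χ.target) :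
    fderiv ℝ (χ ∘ id ∘ χ.symm) x = ContinuousLinearMap.id ℝ (V n) := by
  have hev : (χ ∘ id ∘ χ.symm) =ᶠ[𝓝 x] id := by
    filter_upwards [χ.open_target.mem_nhds hx] with x' hx'
    simp only [Function.comp, id]
    exact χ.right_inv hx'
  rw [hev.fderiv_eq, fderiv_id]

theorem iter_contMDiff (G : DiffM n N r) (l : ℕ) : ContMDiff (𝓡 n) (𝓡 n) r G^[l] := by
  induction l with
  | zero => exact contMDiff_id
  | succ l ih =>
    rw [Function.iterate_succ']
    exact G.contMDiff.comp ih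

/-- the telescoping estimate -/
theorem tele [IsManifold (𝓡 n) ∞ N] (hr : 1 ≤ r) {ι : Type*} (T : Finset ι)
    (c : ι → OpenPartialHomeomorph N (V n)) (zc : ι → N) (hc : ∀ b, GoodChart n N (c b) (zc b))
    (hcov : ∀ y, ∃ b ∈ T, y ∈ (c b).source ∧ ‖c b y‖ ≤ 1 / 4)
    (G : DiffM n N r) (K ρ L δ Γ : ℝ) (hK : 0 < K) (hL : 0 < L) (hΓ : 0 < Γ)
    (hst : ∀ b ∈ T, ∀ b' ∈ T, ∀ y ∈ (c b).source, ‖c b y‖ ≤ 1 / 4 → G y ∈ (c b').source →
      ‖c b' (G y)‖ ≤ 1 / 4 → TT n N K K ρ (c b) (c b') G y)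
    (hLip : ∀ b ∈ T, ∀ y ∈ (c b).source, ∀ y' ∈ (c b).source, ‖c b y‖ ≤ 1 / 2 → ‖c b y'‖ ≤ 1 / 2 →
      dist y y' ≤ L * ‖c b y - c b y'‖ ∧ ‖c b y - c b y'‖ ≤ L * dist y y')
    (hcl : ∀ b ∈ T, ∀ y ∈ (c b).source, ‖c b y‖ ≤ 1 / 4 → ∀ y', dist y y' < δ →
      y' ∈ (c b).source ∧ ‖c b y'‖ < 1 / 2)
    (l : ℕ) (hG : ∀ i ≤ l, ∀ x y, dist (G^[i] x) (G^[i] y) ≤ Γ * dist x y)
    (b₀ : ι) (hb₀ : b₀ ∈ T) (y y' : N) (hy : y ∈ (c b₀).source) (hy4 : ‖c b₀ y‖ ≤ 1 / 4)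
    (hly : G^[l] y ∈ (c b₀).source) (hly4 : ‖c b₀ (G^[l] y)‖ ≤ 1 / 4)
    (hyy : Γ * dist y y' < δ) (hyy2 : L * (Γ * dist y y') < ρ) :
    ‖fderiv ℝ (c b₀ ∘ G^[l] ∘ (c b₀).symm) (c b₀ y') -
      fderiv ℝ (c b₀ ∘ G^[l] ∘ (c b₀).symm) (c b₀ y)‖ ≤
      l * ((L ^ 2 * Γ) * (K * (L * (Γ * dist y y'))) * (L ^ 2 * Γ)) := by
  classical
  have hρ : 0 < ρ := lt_of_le_of_lt (by positivity) hyy2
  choose p hpT hps hp4 using hcov
  obtain ⟨b, hbd⟩ : ∃ b : ℕ → ι, b = fun j => if j = 0 ∨ j = l then b₀ else p (G^[j] y) := ⟨_, rfl⟩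
  have hb0 : b 0 = b₀ := by rw [hbd]; simp
  have hbl : b l = b₀ := by rw [hbd]; simp
  have hb : ∀ j ≤ l, b j ∈ T ∧ G^[j] y ∈ (c (b j)).source ∧ ‖c (b j) (G^[j] y)‖ ≤ 1 / 4 := by
    intro j _
    by_cases h0 : j = 0
    · subst h0
      rw [hb0]
      exact ⟨hb₀, hy, hy4⟩
    · by_cases h1 : j = l
      · subst h1
        rw [hbl]
        exact ⟨hb₀, hly, hly4⟩
      · have h2 : b j = p (G^[j] y) := by rw [hbd]; simp [h0, h1]
        rw [h2]
        exact ⟨hpT _, hps _, hp4 _⟩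
  have hclose : ∀ j ≤ l, dist (G^[j] y) (G^[j] y') ≤ Γ * dist y y' := fun j hj => hG j hj y y'
  have hb' : ∀ j ≤ l, G^[j] y' ∈ (c (b j)).source ∧ ‖c (b j) (G^[j] y')‖ < 1 / 2 := fun j hj =>
    hcl _ (hb j hj).1 _ (hb j hj).2.1 (hb j hj).2.2 _ (lt_of_le_of_lt (hclose j hj) hyy)
  have hy's : y' ∈ (c b₀).source := by
    have := (hb' 0 (Nat.zero_le _)).1
    rwa [hb0] at this
  have hy'2 : ‖c b₀ y'‖ < 1 / 2 := by
    have := (hb' 0 (Nat.zero_le _)).2
    rwa [hb0] at this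
  have hGc : Continuous G := G.continuous
  have hdist0 : 0 ≤ dist y y' := dist_nonneg
  obtain ⟨A, hA⟩ : ∃ A : ℕ → (V n →L[ℝ] V n), A = fun j =>
    fderiv ℝ (c (b j) ∘ G^[j] ∘ (c b₀).symm) (c b₀ y') := ⟨_, rfl⟩
  obtain ⟨R, hR⟩ : ∃ R : ℕ → (V n →L[ℝ] V n), R = fun j =>
    fderiv ℝ (c b₀ ∘ G^[l - j] ∘ (c (b j)).symm) (c (b j) (G^[j] y)) := ⟨_, rfl⟩
  obtain ⟨S, hS⟩ : ∃ S : ℕ → (V n →L[ℝ] V n), S = fun j => (R j).comp (A j) := ⟨_, rfl⟩
  obtain ⟨B, hB⟩ : ∃ B : ℝ, B = (L ^ 2 * Γ) * (K * (L * (Γ * dist y y'))) * (L ^ 2 * Γ) := ⟨_, rfl⟩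
  rw [← hB]
  have hS0 : S 0 = fderiv ℝ (c b₀ ∘ G^[l] ∘ (c b₀).symm) (c b₀ y) := by
    rw [hS, hR, hA]
    simp only [hb0, Nat.sub_zero]
    have e1 : (G^[0] : N → N) = id := rfl
    rw [e1, fderiv_self ((c b₀).map_source hy's), ContinuousLinearMap.comp_id]
    rfl
  have hSl : S l = fderiv ℝ (c b₀ ∘ G^[l] ∘ (c b₀).symm) (c b₀ y') := by
    rw [hS, hR, hA]
    simp only [hbl, Nat.sub_self]
    have e1 : (G^[0] : N → N) = id := rfl
    rw [e1, fderiv_self ((c b₀).map_source hly), ContinuousLinearMap.id_comp]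
  have hstep : ∀ j < l, ‖S (j + 1) - S j‖ ≤ B := by
    intro j hj
    obtain ⟨t1, t2, t3⟩ := hb j hj.le
    obtain ⟨t1', t2', t3'⟩ := hb (j + 1) hj
    obtain ⟨q1, q2⟩ := hb' j hj.le
    obtain ⟨q1', q2'⟩ := hb' (j + 1) hj
    have hGy : G (G^[j] y) = G^[j + 1] y := (Function.iterate_succ_apply' _ _ _).symm
    have hGy' : G (G^[j] y') = G^[j + 1] y' := (Function.iterate_succ_apply' _ _ _).symm
    have hTT := hst (b j) t1 (b (j + 1)) t1' (G^[j] y) t2 t3 (by rw [hGy]; exact t2')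
      (by rw [hGy]; exact t3')
    obtain ⟨M, hM⟩ : ∃ M, M = fderiv ℝ (c (b (j + 1)) ∘ G ∘ (c (b j)).symm) (c (b j) (G^[j] y)) :=
      ⟨_, rfl⟩
    obtain ⟨M', hM'⟩ : ∃ M', M' = fderiv ℝ (c (b (j + 1)) ∘ G ∘ (c (b j)).symm)
      (c (b j) (G^[j] y')) := ⟨_, rfl⟩
    have hdiffM : DifferentiableAt ℝ (c (b (j + 1)) ∘ G ∘ (c (b j)).symm) (c (b j) (G^[j] y)) := by
      refine diff_charts hr G G.contMDiff (hc _).mem (hc _).mem ((c (b j)).map_source t2) ?_
      rw [(c (b j)).left_inv t2, hGy]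
      exact t2'
    have hdiffM' : DifferentiableAt ℝ (c (b (j + 1)) ∘ G ∘ (c (b j)).symm)
        (c (b j) (G^[j] y')) := by
      refine diff_charts hr G G.contMDiff (hc _).mem (hc _).mem ((c (b j)).map_source q1) ?_
      rw [(c (b j)).left_inv q1, hGy']
      exact q1'
    have hAj : A (j + 1) = M'.comp (A j) := by
      rw [hA, hM']
      simp only
      rw [Function.iterate_succ']
      have hx2 : G^[j] ((c b₀).symm (c b₀ y')) ∈ (c (b j)).source := by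
        rw [(c b₀).left_inv hy's]
        exact q1
      rw [chain_charts (χ₁ := c b₀) (χ₂ := c (b j)) (χ₃ := c (b (j + 1))) G^[j] G
        (hGc.iterate j) ((c b₀).map_source hy's) hx2 ?_ ?_]
      · rw [(c b₀).left_inv hy's]
      · exact diff_charts hr _ (iter_contMDiff G j) (hc _).mem (hc _).mem
          ((c b₀).map_source hy's) hx2
      · rw [(c b₀).left_inv hy's]
        exact hdiffM'
    have hsub : l - j = (l - (j + 1)) + 1 := by omega
    have hlj : l - (j + 1) + (j + 1) = l := by omega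
    have hit : G^[l - (j + 1)] (G^[j + 1] y) = G^[l] y := by
      rw [← Function.iterate_add_apply, hlj]
    have hRj : R j = (R (j + 1)).comp M := by
      rw [hR, hM]
      simp only
      rw [hsub, Function.iterate_succ]
      have hx2 : G ((c (b j)).symm (c (b j) (G^[j] y))) ∈ (c (b (j + 1))).source := by
        rw [(c (b j)).left_inv t2, hGy]
        exact t2'
      rw [chain_charts (χ₁ := c (b j)) (χ₂ := c (b (j + 1))) (χ₃ := c b₀) G G^[l - (j + 1)]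
        hGc ((c (b j)).map_source t2) hx2 hdiffM ?_]
      · rw [(c (b j)).left_inv t2, hGy]
      · rw [(c (b j)).left_inv t2, hGy]
        refine diff_charts hr _ (iter_contMDiff G _) (hc _).mem (hc _).mem
          ((c (b (j + 1))).map_source t2') ?_
        rw [(c (b (j + 1))).left_inv t2', hit]
        exact hly
    have hSS : S (j + 1) - S j = (R (j + 1)).comp ((M' - M).comp (A j)) := by
      rw [hS]
      simp only
      rw [hAj, hRj]
      ext v
      simp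
    have hRn : ‖R (j + 1)‖ ≤ L ^ 2 * Γ := by
      rw [hR]
      refine bd_charts G^[l - (j + 1)] (hGc.iterate _) hΓ.le hL (hG _ (by omega))
        (hLip _ t1') (hLip _ hb₀) ((c (b (j + 1))).map_source t2') (by linarith) ?_ ?_
      · rw [(c (b (j + 1))).left_inv t2', hit]
        exact hly
      · rw [(c (b (j + 1))).left_inv t2', hit]
        linarith
    have hAn : ‖A j‖ ≤ L ^ 2 * Γ := by
      rw [hA]
      refine bd_charts G^[j] (hGc.iterate _) hΓ.le hL (hG _ hj.le)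
        (hLip _ hb₀) (hLip _ t1) ((c b₀).map_source hy's) hy'2 ?_ ?_
      · rw [(c b₀).left_inv hy's]
        exact q1
      · rw [(c b₀).left_inv hy's]
        exact q2
    have hpp : ‖c (b j) (G^[j] y') - c (b j) (G^[j] y)‖ ≤ L * (Γ * dist y y') := by
      have e1 := (hLip _ t1 (G^[j] y') q1 (G^[j] y) t2 q2.le (by linarith)).2
      refine e1.trans (mul_le_mul_of_nonneg_left ?_ hL.le)
      rw [dist_comm]
      exact hclose j hj.le
    have hMM : ‖M' - M‖ ≤ K * (L * (Γ * dist y y')) := by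
      rw [hM, hM']
      have e1 := hTT.lip (c (b j) (G^[j] y')) (by
        rw [mem_ball_iff_norm]
        exact lt_of_le_of_lt hpp hyy2) (c (b j) (G^[j] y)) (mem_ball_self hρ)
      exact e1.trans (mul_le_mul_of_nonneg_left hpp hK.le)
    rw [hSS, hB]
    calc ‖(R (j + 1)).comp ((M' - M).comp (A j))‖ ≤ ‖R (j + 1)‖ * ‖(M' - M).comp (A j)‖ :=
          ContinuousLinearMap.opNorm_comp_le _ _
      _ ≤ ‖R (j + 1)‖ * (‖M' - M‖ * ‖A j‖) :=
          mul_le_mul_of_nonneg_left (ContinuousLinearMap.opNorm_comp_le _ _) (norm_nonneg _)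
      _ ≤ (L ^ 2 * Γ) * (K * (L * (Γ * dist y y')) * (L ^ 2 * Γ)) :=
          mul_le_mul hRn (mul_le_mul hMM hAn (norm_nonneg _) (by positivity))
            (by positivity) (by positivity)
      _ = _ := by ring
  have hsum : ∀ j ≤ l, ‖S j - S 0‖ ≤ j * B := by
    intro j
    induction j with
    | zero =>
      intro _
      simp
    | succ j ih =>
      intro hj
      have e1 := ih (by omega)
      have e2 := hstep j hj
      have e3 : S (j + 1) - S 0 = (S (j + 1) - S j) + (S j - S 0) := by abel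
      rw [e3]
      refine (norm_add_le _ _).trans ?_
      push_cast
      linarith
  have := hsum l le_rfl
  rwa [hS0, hSl] at this

end

end Pool.Agent.Y368.CL
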